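import Pool.Agent.H26.QQ.Targets

/-!
# Triples with one dusty entry (MP_7ecdd4_nt): row GSQ (model: row CLA of helper85)
-/

set_option autoImplicit false

open Finset MvPolynomial

namespace Pool.Agent.H5.QQ

open Pool.Agent.H29.FX
open Pool.Agent.H26.QQ

theorem gsq_mono {n : ℕ} {Y : ℝ} {B B' : ℕ} {f : Pl n} (hY : 1 ≤ Y) (hB : B ≤ B')
    (h : Cx Y B f) : Cx Y B' f :=
  ⟨h.deg.trans hB, h.le.trans (pow_le_pow_right₀ hY hB)⟩

theorem gsq_dust {E E' : ℕ} {γ γ' ε Y : ℝ} {F : ℤ} (hY : 1 ≤ Y) (hE : E ≤ E') (hγ : γ' ≤ γ)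
    (h : Dust E' γ' ε Y F) : Dust E γ ε Y F := by
  obtain ⟨D, hD, hp⟩ := h
  refine ⟨D, fun l hl => ?_, hp⟩
  obtain ⟨h1, h2, h3⟩ := hD l hl
  exact ⟨h1, h2.trans (Real.rpow_le_rpow_of_exponent_le hY hγ), (pow_dvd_pow _ hE).trans h3⟩

theorem gsq_const (K δ : ℝ) (hK : 0 ≤ K) (hδ : 0 < δ) (Y : ℝ) (hY : K ^ (2 / δ) ≤ Y) :
    K ≤ Y ^ (δ / 2) := by
  have h1 : (K ^ (2 / δ)) ^ (δ / 2) = K := by
    rw [← Real.rpow_mul hK]
    have : 2 / δ * (δ / 2) = 1 := by field_simp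
    rw [this, Real.rpow_one]
  calc K = (K ^ (2 / δ)) ^ (δ / 2) := h1.symm
    _ ≤ Y ^ (δ / 2) := Real.rpow_le_rpow (Real.rpow_nonneg hK _) hY (by positivity)

theorem pf_GSQ (hALG : T_ALG) (hDER : T_DER) : T_GSQ := by
  classical
  intro n m B B₁ δ ε hδ _ hRec
  set B₂ : ℕ := max B (B₁ + B₁ * B₁) with hB₂
  obtain ⟨E, γ, c, Y₂, hγ, hc, hY₂, hrec⟩ := hRec B₂
  set K : ℝ := ((n ^ B₁ * ((B₁ + 1) * n) : ℕ) : ℝ) with hK
  have hK0 : 0 ≤ K := Nat.cast_nonneg _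
  refine ⟨E, γ, c, max Y₂ (K ^ (2 / δ)), hγ, hc, hY₂.trans (le_max_left _ _), ?_⟩
  intro Y H γ' pt e u w L G E' S hY hEE hγγ hH he hu hw hL hcard hCx hG0 hGv hGC hS hinj
  have hYY₂ : Y₂ ≤ Y := (le_max_left _ _).trans hY
  have hYK : K ^ (2 / δ) ≤ Y := (le_max_right _ _).trans hY
  have hY2 : 2 ≤ Y := hY₂.trans hYY₂
  have hY1 : 1 ≤ Y := by linarith
  have hY0 : 0 ≤ Y := by linarith
  set T : ℝ := Y ^ (((m : ℝ) + 1) * (2 * n + 6) * δ) with hT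
  have hT0 : 0 ≤ T := Real.rpow_nonneg hY0 _
  obtain ⟨hALG1, hALG2, hALG3, hALG4, hALG5⟩ := hALG n L hL
  let Q : (Fin B₁ → Fin n) × Fin (B₁ + 1) × Fin n → Pl n := fun t =>
    pl ((List.ofFn t.1).take (t.2.1 : ℕ)) G
  let P : (Fin B₁ → Fin n) × Fin (B₁ + 1) × Fin n → (Fin n → ℤ) → Prop := fun t z =>
    eval z (Q t) = 0 ∧ eval z (pderiv t.2.2 (Q t)) ≠ 0 ∧ t.2.2 ∈ G.vars ∧
      (Q t).vars ⊆ G.vars ∧ Cx Y (B₁ + B₁ * B₁) (Q t)
  have hcov : S ⊆ (univ : Finset ((Fin B₁ → Fin n) × Fin (B₁ + 1) × Fin n)).biUnion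
      fun t => S.filter (P t) := by
    intro z hz
    obtain ⟨f, b, i, h1, h2, h3, h4, h5⟩ := hDER n B₁ Y G z hY2 hG0 hGC (hS z hz).2.2.2
    rw [Finset.mem_biUnion]
    exact ⟨(f, b, i), Finset.mem_univ _, Finset.mem_filter.mpr ⟨hz, h1, h2, h3, h4, h5⟩⟩
  have hone : ∀ t, ((S.filter (P t)).card : ℝ) ≤ T := by
    intro t
    rcases (S.filter (P t)).eq_empty_or_nonempty with h0 | ⟨z₁, hz₁⟩
    · rw [h0, Finset.card_empty, Nat.cast_zero]
      exact hT0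
    obtain ⟨hz₁S, -, -, ht3, ht4, ht5⟩ := Finset.mem_filter.mp hz₁
    have hi : t.2.2 ∈ TI L := hGv ht3
    have hQv : (Q t).vars ⊆ TI L := ht4.trans hGv
    have hTD : TD L t.2.2 (Q t) = TJ L * pderiv t.2.2 (Q t) := hALG4 (Q t) hQv t.2.2 hi
    refine hrec Y H pt e u w ((Q t, t.2.2) :: L) (S.filter (P t)) hYY₂ hH he hu hw ⟨hi, hL⟩ ?_
      ?_ ?_ ?_
    · change ((TI L).erase t.2.2).card = m
      rw [Finset.card_erase_of_mem hi, hcard, Nat.add_sub_cancel]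
    · intro q hq
      rcases List.mem_cons.mp hq with rfl | hq
      · exact gsq_mono hY1 (le_max_right _ _) ht5
      · exact gsq_mono hY1 (le_max_left _ _) (hCx q hq)
    · intro z hz
      obtain ⟨hzS, hz1, hz2, -, -, -⟩ := Finset.mem_filter.mp hz
      have hz' := hS z hzS
      refine ⟨⟨hz'.1.pos, hz'.1.le, hz'.1.cop, hz'.1.sm0, hz'.1.sm1,
        gsq_dust hY1 hEE hγγ hz'.1.dust⟩, ?_, ?_⟩
      · intro q hq
        rcases List.mem_cons.mp hq with rfl | hq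
        · exact hz1
        · exact hz'.2.1 q hq
      · have h1 : TJ ((Q t, t.2.2) :: L) = TJ L * TD L t.2.2 (Q t) := rfl
        have h2 : eval z (TJ L) ≠ 0 := hz'.2.2.1
        rw [h1, hTD, map_mul, map_mul]
        exact mul_ne_zero h2 (mul_ne_zero h2 hz2)
    · exact hinj.mono (by
        intro z hz
        exact (Finset.mem_filter.mp hz).1)
  have hidx : ((univ : Finset ((Fin B₁ → Fin n) × Fin (B₁ + 1) × Fin n)).card : ℝ) = K := by
    rw [hK, Finset.card_univ, Fintype.card_prod, Fintype.card_prod, Fintype.card_fun,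
      Fintype.card_fin, Fintype.card_fin, Fintype.card_fin]
  calc (S.card : ℝ)
      ≤ (((univ : Finset ((Fin B₁ → Fin n) × Fin (B₁ + 1) × Fin n)).biUnion
          fun t => S.filter (P t)).card : ℝ) := by exact_mod_cast Finset.card_le_card hcov
    _ ≤ ((∑ t : (Fin B₁ → Fin n) × Fin (B₁ + 1) × Fin n, (S.filter (P t)).card : ℕ) : ℝ) := by
        exact_mod_cast Finset.card_biUnion_le
    _ = ∑ t : (Fin B₁ → Fin n) × Fin (B₁ + 1) × Fin n, ((S.filter (P t)).card : ℝ) := by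
        push_cast
        rfl
    _ ≤ ∑ _t : (Fin B₁ → Fin n) × Fin (B₁ + 1) × Fin n, T :=
        Finset.sum_le_sum fun t _ => hone t
    _ = K * T := by rw [Finset.sum_const, nsmul_eq_mul, hidx]
    _ ≤ Y ^ (δ / 2) * T :=
        mul_le_mul_of_nonneg_right (gsq_const K δ hK0 hδ Y hYK) hT0

end Pool.Agent.H5.QQ
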